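import Mathlib
import Pool.Agent.H53.KhB

open Finset MeasureTheory ProbabilityTheory Filter Topology Pool.Agent.H53.Kh

namespace Pool.Agent.Results.MP_47485c_an.Full

theorem result {Ω : Type} [MeasurableSpace Ω] (P : Measure Ω) [IsProbabilityMeasure P] (p : ℝ) (p0 : 0 < p) (p1 : p < 1)
    (ω : ℕ → Ω → ℕ) (mω : ∀ i, Measurable (ω i)) (hω : iIndepFun ω P)
    (h2 : ∀ i, P.real {a | ω i a = 2} = p) (h3 : ∀ i, P.real {a | ω i a = 3} = 1 - p) :
    ∀ᵐ a ∂P, ∃ f : UnitAddCircle → ℝ, Measurable f ∧ (∀ x, |f x| ≤ 1) ∧ Integrable f ∧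
      ¬ ∀ᵐ x : UnitAddCircle, Tendsto (fun N : ℕ => (1 / N : ℝ) * ∑ n ∈ range N, f ((∏ i ∈ range (n + 1), ω i a) • x))
        atTop (𝓝 (∫ x, f x)) := by
  haveI : IsProbabilityMeasure (volume : Measure UnitAddCircle) := ⟨UnitAddCircle.measure_univ⟩
  have a1 := fun k : ℕ => ae_good (X := fun i a => decide (ω i a = 2)) (p := p)
    (fun i => (measurable_of_countable fun n : ℕ => decide (n = 2)).comp (mω i))
    (hω.comp (fun _ (n : ℕ) => decide (n = 2)) fun _ => measurable_of_countable _)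
    (fun i => by rw [← h2 i]; congr 1; ext; simp) p0 p1 (352 * 2 ^ k) (k + 1)
  have a2 : ∀ i, ∀ᵐ a ∂P, ω i a = 2 ∨ ω i a = 3 := fun i => by
    have m2 : MeasurableSet {a | ω i a = 2} := mω i (measurableSet_singleton 2)
    have m3 : MeasurableSet {a | ω i a = 3} := mω i (measurableSet_singleton 3)
    rw [ae_iff, ← measureReal_eq_zero_iff, show {a | ¬(ω i a = 2 ∨ ω i a = 3)} = ({a | ω i a = 2} ∪ {a | ω i a = 3})ᶜ from rfl,
      probReal_compl_eq_one_sub (m2.union m3), measureReal_union (Set.disjoint_left.2 fun a h h' => by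
        simp only [Set.mem_setOf_eq] at h h'; omega) m3, h2, h3]
    ring
  filter_upwards [ae_all_iff.2 a1, ae_all_iff.2 a2] with a b1 b2
  have e : ∀ i, ω i a = if decide (ω i a = 2) then 2 else 3 := fun i => by
    rcases b2 i with h | h <;> simp [h]
  choose E e1 e2 G g1 g2 g3 using fun k => sweep p0 p1 _ _ (Nat.one_le_iff_ne_zero.2 (by positivity)) _ (b1 k)
  simp only [← e] at g3
  have mE := MeasurableSet.iUnion e1
  have vE : volume.real (⋃ k, E k) ≤ 1 / 8 := by
    refine ENNReal.toReal_le_of_le_ofReal (by norm_num) ((measure_iUnion_le _).trans ((ENNReal.tsum_le_tsum fun k =>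
      (ENNReal.le_ofReal_iff_toReal_le (measure_ne_top _ _) (by positivity)).2 ((e2 k).trans_eq
      (show _ = 1 / 8 / 2 / 2 ^ k by push_cast; field_simp; norm_num))).trans_eq ?_))
    rw [← ENNReal.ofReal_tsum_of_nonneg (fun _ => by positivity) (summable_geometric_two' _), tsum_geometric_two']
  refine ⟨(⋃ k, E k).indicator 1, measurable_one.indicator mE, fun x => by
    by_cases h : x ∈ ⋃ k, E k <;> simp [h], (integrable_const 1).indicator mE, fun h => ?_⟩
  rw [integral_indicator_one mE] at h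
  set H : ℕ → Set UnitAddCircle := fun k => {x | ∀ N ≥ k, (1 / N : ℝ) * ∑ n ∈ range N,
    (⋃ k, E k).indicator 1 ((∏ i ∈ range (n + 1), ω i a) • x) < 1 / 4}
  have c1 : volume (Set.univ : Set UnitAddCircle) ≤ volume (⋃ k, H (k + 1)) := measure_mono_ae (h.mono fun x hx _ => by
    obtain ⟨k, hk⟩ := eventually_atTop.1 (hx.eventually (gt_mem_nhds (show _ < 1 / 4 by linarith)))
    exact Set.mem_iUnion.2 ⟨k, fun N hN => hk N (by omega)⟩)
  rw [measure_univ, Monotone.measure_iUnion (s := fun k => H (k + 1)) fun k l hkl x hx N hN => hx N (by omega)] at c1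
  refine absurd (c1.trans (iSup_le fun k => (measure_mono (t := (G k)ᶜ) fun x hx hx' => ?_).trans
    ((ENNReal.le_ofReal_iff_toReal_le (measure_ne_top _ _) (by norm_num)).2 (show volume.real (G k)ᶜ ≤ 1 / 2 by
      rw [probReal_compl_eq_one_sub (g1 k)]; linarith [g2 k])))) (by norm_num)
  obtain ⟨N, n1, n2⟩ := g3 k x hx'
  have n0 : (0:ℝ) < N := by exact_mod_cast (by omega : 0 < N)
  have := hx N n1
  rw [one_div_mul_eq_div, div_lt_iff₀ n0] at this
  exact absurd (n2.trans (sum_le_sum fun n _ => Set.indicator_le_indicator_of_subset (Set.subset_iUnion E k)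
    (fun _ => zero_le_one) _)) (not_le.2 (this.trans_eq (by ring)))

end Pool.Agent.Results.MP_47485c_an.Full
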